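import Pool.Agent.H.MP_9f60e7_an.CS

/-!
Wave maps from (3+1)-dimensional Minkowski space into hyperbolic 3-space (upper half-space model, coordinates
`0, 1, 2`, the last one positive): smooth Cauchy data which are constant and at rest outside a bounded set, with
values in a totally geodesic hyperbolic plane, and which have no smooth solution up to time `1`.
A space-time point is `X : Fin 4 → ℝ`, `X 0` is the time; the data are given at time `0`.
-/

set_option autoImplicit false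

namespace Pool.Agent.Results.MP_9f60e7_an.CompactData

/-- There are smooth data `(u0, u1)`, with `u0 = (0,0,1)` and `u1 = 0` outside the cube `max |x_i| < 2` and with
values in the plane where the coordinate `1` vanishes, such that for no `ε > 0` there is a map `u`, smooth on
`(-ε, 1+ε) × ℝ³`, with these data, with values in the upper half space for `0 ≤ t ≤ 1` and satisfying the wave
map equation for `0 ≤ t ≤ 1`. -/
theorem result :
    ∃ u0 u1 : (Fin 3 → ℝ) → (Fin 3 → ℝ),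
      ContDiff ℝ (⊤ : ℕ∞) u0 ∧ ContDiff ℝ (⊤ : ℕ∞) u1 ∧ (∀ x, 0 < u0 x 2) ∧
      (∀ x, u0 x 1 = 0 ∧ u1 x 1 = 0) ∧
      (∀ x, 2 ≤ ‖x‖ → u0 x = ![0, 0, 1] ∧ u1 x = 0) ∧
      ∀ ε : ℝ, 0 < ε → ¬ ∃ u : (Fin 4 → ℝ) → (Fin 3 → ℝ),
        ContDiffOn ℝ (⊤ : ℕ∞) u {X | -ε < X 0 ∧ X 0 < 1 + ε} ∧
        (∀ X, 0 ≤ X 0 → X 0 ≤ 1 → 0 < u X 2) ∧
        (∀ x, u (Matrix.vecCons 0 x) = u0 x) ∧
        (∀ x, fderiv ℝ u (Matrix.vecCons 0 x) (Pi.single 0 1) = u1 x) ∧
        ∀ X : Fin 4 → ℝ, 0 ≤ X 0 → X 0 ≤ 1 → ∀ k : Fin 3,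
          ∑ μ : Fin 4, (if μ = 0 then (-1 : ℝ) else 1) *
            (fderiv ℝ (fun Y => fderiv ℝ u Y (Pi.single μ 1) k) X (Pi.single μ 1) +
              ∑ i : Fin 3, ∑ j : Fin 3,
                (-((if i = k then (1 : ℝ) else 0) * (if j = 2 then (1 : ℝ) else 0)
                    + (if j = k then (1 : ℝ) else 0) * (if i = 2 then (1 : ℝ) else 0)
                    - (if i = j then (1 : ℝ) else 0) * (if k = 2 then (1 : ℝ) else 0)) / u X 2)
                  * fderiv ℝ u X (Pi.single μ 1) i * fderiv ℝ u X (Pi.single μ 1) j) = 0 := by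
  obtain ⟨u0, u1, h0, h1, h2, h3, h4, h5⟩ := Pool.Agent.H.MP_9f60e7_an.compact_data
  refine ⟨u0, u1, h0, h1, h2, h3, h4, ?_⟩
  rintro ε hε ⟨u, hu, hu2, hu0, hu1, hup⟩
  exact h5 ε hε u hu hu2 hu0 hu1 hup

end Pool.Agent.Results.MP_9f60e7_an.CompactData
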